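import Pool.Agent.U125.GF.Loc
import Pool.Agent.N697.RO.Supply
import Pool.Agent.Helper379.Div3

/-!
# The vectors `(a, b, c)` without an obstructing prime are a pronull set
-/

set_option autoImplicit false

namespace Pool.Agent.U125.GF

open Finset
open Pool.Agent.N24.RW (ProNull)

/-- the reduction modulo `p` of a class modulo `p ^ 2` -/
def red (p : ℕ) : ZMod (p ^ 2) →+* ZMod p := ZMod.castHom (dvd_pow_self p two_ne_zero) (ZMod p)

/-- the nonzero `g`-th powers modulo `p` -/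
noncomputable def pw (p g : ℕ) [Fact p.Prime] : Finset (ZMod p) :=
  (univ.filter (fun s : ZMod p => s ≠ 0)).image (fun s => s ^ g)

lemma card_ne_zero (p : ℕ) [Fact p.Prime] : (univ.filter (fun s : ZMod p => s ≠ 0)).card = p - 1 := by
  rw [filter_ne', card_erase_of_mem (mem_univ _), card_univ, ZMod.card]

lemma pw_lower (p g : ℕ) [Fact p.Prime] (hg : 1 ≤ g) : p - 1 ≤ g * (pw p g).card := by
  rw [← card_ne_zero p]
  refine card_le_mul_card_image _ g fun w _ => ?_
  refine le_trans (card_le_card (t := (Polynomial.nthRoots g w).toFinset) fun s hs => ?_) ?_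
  · rw [mem_filter] at hs
    rw [Multiset.mem_toFinset, Polynomial.mem_nthRoots (by omega)]
    exact hs.2
  · exact (Multiset.toFinset_card_le _).trans (Polynomial.card_nthRoots g w)

lemma exists_root (p g : ℕ) [Fact p.Prime] (hg : 2 ≤ g) (hd : g ∣ p - 1) : ∃ z : ZMod p, z ≠ 1 ∧ z ≠ 0 ∧ z ^ g = 1 := by
  have hp : p.Prime := Fact.out
  obtain ⟨γ, hγ⟩ := IsCyclic.exists_generator (α := (ZMod p)ˣ)
  have ho : orderOf γ = p - 1 := by
    rw [orderOf_eq_card_of_forall_mem_zpowers hγ, Nat.card_eq_fintype_card, ZMod.card_units]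
  obtain ⟨k, hk⟩ := hd
  have hp1 : 0 < p - 1 := by have := hp.two_le; omega
  have hk0 : 0 < k := by
    rcases Nat.eq_zero_or_pos k with h | h
    · rw [h, mul_zero] at hk; omega
    · exact h
  refine ⟨((γ ^ k : (ZMod p)ˣ) : ZMod p), ?_, Units.ne_zero _, ?_⟩
  · intro h1
    have h2 : γ ^ k = 1 := by
      ext
      exact h1
    have h3 := orderOf_dvd_of_pow_eq_one h2
    rw [ho] at h3
    have h4 := Nat.le_of_dvd hk0 h3
    have : k < g * k := by nlinarith
    omega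
  · rw [← Units.val_pow_eq_pow_val, ← pow_mul, mul_comm k g, ← hk, ← ho, pow_orderOf_eq_one, Units.val_one]

lemma pw_upper (p g : ℕ) [Fact p.Prime] (hg : 2 ≤ g) (hd : g ∣ p - 1) : 2 * (pw p g).card ≤ p - 1 := by
  obtain ⟨z, hz1, hz0, hz⟩ := exists_root p g hg hd
  rw [← card_ne_zero p]
  refine mul_card_image_le_card _ 2 fun w hw => ?_
  obtain ⟨s, hs, rfl⟩ := mem_image.1 hw
  have hs0 : s ≠ 0 := (mem_filter.1 hs).2
  have hne : s ≠ z * s := by
    intro h
    apply hz1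
    have : z * s = 1 * s := by rw [one_mul]; exact h.symm
    exact mul_right_cancel₀ hs0 this
  rw [← card_pair hne]
  refine card_le_card fun t ht => ?_
  rw [mem_insert, mem_singleton] at ht
  rw [mem_filter, mem_filter]
  rcases ht with rfl | rfl
  · exact ⟨⟨mem_univ _, hs0⟩, rfl⟩
  · refine ⟨⟨mem_univ _, mul_ne_zero hz0 hs0⟩, ?_⟩
    rw [mul_pow, hz, one_mul]

lemma lift_card (p : ℕ) [Fact p.Prime] [NeZero (p ^ 2)] (T : Finset (ZMod p)) :
    T.card * p ≤ (univ.filter (fun w : ZMod (p ^ 2) => red p w ∈ T)).card := by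
  have hp : p.Prime := Fact.out
  have h1 : (T ×ˢ range p).card = T.card * p := by rw [card_product, card_range]
  rw [← h1]
  refine card_le_card_of_injOn (fun t => ((t.1.val + p * t.2 : ℕ) : ZMod (p ^ 2))) ?_ ?_
  · rintro ⟨t, j⟩ ht
    have ht := mem_coe.1 ht
    rw [mem_product] at ht
    refine mem_coe.2 (mem_filter.2 ⟨mem_univ _, ?_⟩)
    have : red p (((t.val + p * j : ℕ) : ZMod (p ^ 2))) = t := by
      rw [map_natCast]
      push_cast
      rw [ZMod.natCast_self, zero_mul, add_zero, ZMod.natCast_zmod_val]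
    show red p (((t.val + p * j : ℕ) : ZMod (p ^ 2))) ∈ T
    rw [this]
    exact ht.1
  · rintro ⟨t, j⟩ ht ⟨t', j'⟩ ht' heq
    have ht := mem_coe.1 ht
    have ht' := mem_coe.1 ht'
    rw [mem_product, mem_range] at ht ht'
    have h2 : ((t.val + p * j : ℕ) : ZMod (p ^ 2)) = ((t'.val + p * j' : ℕ) : ZMod (p ^ 2)) := heq
    rw [ZMod.natCast_eq_natCast_iff'] at h2
    have hb : ∀ (t : ZMod p) (j : ℕ), j < p → t.val + p * j < p ^ 2 := by
      intro t j hj
      have h3 := ZMod.val_lt t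
      have h4 : p * (j + 1) ≤ p * p := Nat.mul_le_mul_left p hj
      nlinarith
    rw [Nat.mod_eq_of_lt (hb t j ht.2), Nat.mod_eq_of_lt (hb t' j' ht'.2)] at h2
    have h5 : t.val = t'.val := by
      have := congrArg (· % p) h2
      simpa [Nat.add_mul_mod_self_left, Nat.mod_eq_of_lt (ZMod.val_lt t), Nat.mod_eq_of_lt (ZMod.val_lt t')] using this
    have h6 : j = j' := by
      rw [h5] at h2
      exact Nat.eq_of_mul_eq_mul_left hp.pos (by omega)
    rw [ZMod.val_injective p h5, h6]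

/-- the three sets of classes -/
noncomputable def cls (p g : ℕ) [Fact p.Prime] [NeZero (p ^ 2)] : Fin 3 → Finset (ZMod (p ^ 2)) :=
  ![univ.filter (fun w => red p w ∈ ((univ.filter (fun s : ZMod p => s ≠ 0)) \ pw p g).image (fun s => -s)),
    univ.filter (fun w => red p w ∈ pw p g),
    (univ.filter (fun w => red p w ∈ ({0} : Finset (ZMod p)))).erase 0]

lemma obstr_of_cls {p g : ℕ} [Fact p.Prime] [NeZero (p ^ 2)] (hg : 1 ≤ g) {c : Fin 3 → ℤ}
    (h : ∀ i, (c i : ZMod (p ^ 2)) ∈ cls p g i) : Obstr p g (c 0) (c 1) (c 2) := by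
  have hp : p.Prime := Fact.out
  have hred : ∀ x : ℤ, red p (x : ZMod (p ^ 2)) = (x : ZMod p) := fun x => map_intCast _ x
  have h0 := h 0
  have h1 := h 1
  have h2 := h 2
  simp only [cls, Matrix.cons_val_zero, Matrix.cons_val_one, Matrix.cons_val_two, Matrix.head_cons,
    Matrix.tail_cons] at h0 h1 h2
  rw [mem_filter, hred] at h0 h1
  rw [mem_erase, mem_filter, hred, mem_singleton] at h2
  obtain ⟨s, hs, hsa⟩ := mem_image.1 h0.2
  rw [mem_sdiff, mem_filter] at hs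
  obtain ⟨⟨-, hs0⟩, hsn⟩ := hs
  obtain ⟨t, ht, htb⟩ := mem_image.1 h1.2
  have ht0 : t ≠ 0 := (mem_filter.1 ht).2
  have ha : ((c 0 : ℤ) : ZMod p) ≠ 0 := by rw [← hsa]; exact neg_ne_zero.2 hs0
  have hb : ((c 1 : ℤ) : ZMod p) ≠ 0 := by rw [← htb]; exact pow_ne_zero _ ht0
  refine ⟨fun hd => ha ((ZMod.intCast_zmod_eq_zero_iff_dvd _ _).2 hd),
    fun hd => hb ((ZMod.intCast_zmod_eq_zero_iff_dvd _ _).2 hd), ?_, fun u v huv => ?_⟩
  · obtain ⟨c0, hc0⟩ := (ZMod.intCast_zmod_eq_zero_iff_dvd _ _).1 h2.2.2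
    refine ⟨c0, hc0, fun hd => h2.1 ?_⟩
    obtain ⟨c1, hc1⟩ := hd
    rw [ZMod.intCast_zmod_eq_zero_iff_dvd]
    refine ⟨c1, ?_⟩
    rw [hc0, hc1]
    push_cast
    ring
  · by_contra hu
    have hu0 : ((u : ℤ) : ZMod p) ≠ 0 := fun h => hu ((ZMod.intCast_zmod_eq_zero_iff_dvd _ _).1 h)
    have h3 : ((c 0 : ℤ) : ZMod p) * (u : ZMod p) ^ g + ((c 1 : ℤ) : ZMod p) * (v : ZMod p) ^ g = 0 := by
      have := (ZMod.intCast_zmod_eq_zero_iff_dvd _ _).2 huv
      push_cast at this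
      exact this
    rw [← hsa, ← htb] at h3
    have h4 : s * (u : ZMod p) ^ g = (t * v) ^ g := by
      rw [mul_pow]
      have : -s * (u : ZMod p) ^ g + t ^ g * (v : ZMod p) ^ g = 0 := h3
      linear_combination -this
    have h5 : s = (t * v / u) ^ g := by
      rw [div_pow, ← h4, mul_div_assoc, div_self (pow_ne_zero _ hu0), mul_one]
    apply hsn
    refine mem_image.2 ⟨t * v / u, mem_filter.2 ⟨mem_univ _, fun h0 => ?_⟩, h5.symm⟩
    rw [h0, zero_pow (by omega)] at h5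
    exact hs0 h5

lemma cls_share {p g : ℕ} [Fact p.Prime] [NeZero (p ^ 2)] (hg : 2 ≤ g) (hd : g ∣ p - 1) :
    1 / (16 * (g : ℝ)) * (1 / p) ≤
      (((Fintype.piFinset (cls p g) : Finset (Fin 3 → ZMod (p ^ 2))) : Set (Fin 3 → ZMod (p ^ 2))).ncard : ℝ) /
        ((p ^ 2 : ℕ) : ℝ) ^ Fintype.card (Fin 3) := by
  have hp : p.Prime := Fact.out
  have hp2 := hp.two_le
  rw [Set.ncard_coe_finset, Fintype.card_piFinset, Fin.prod_univ_three]
  have e0 : (((univ.filter (fun s : ZMod p => s ≠ 0)) \ pw p g).image (fun s => -s)).card = p - 1 - (pw p g).card := by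
    rw [card_image_of_injective _ neg_injective, card_sdiff_of_subset, card_ne_zero]
    intro w hw
    obtain ⟨s, hs, rfl⟩ := mem_image.1 hw
    exact mem_filter.2 ⟨mem_univ _, pow_ne_zero _ (mem_filter.1 hs).2⟩
  have h0 : (p - 1 - (pw p g).card) * p ≤ (cls p g 0).card := by
    rw [← e0]
    exact lift_card p _
  have h1 : (pw p g).card * p ≤ (cls p g 1).card := lift_card p _
  have h2 : p - 1 ≤ (cls p g 2).card := by
    have h3 := lift_card p ({0} : Finset (ZMod p))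
    rw [card_singleton, one_mul] at h3
    have h4 : (cls p g 2).card = (univ.filter (fun w : ZMod (p ^ 2) => red p w ∈ ({0} : Finset (ZMod p)))).card - 1 := by
      show ((univ.filter (fun w => red p w ∈ ({0} : Finset (ZMod p)))).erase 0).card = _
      rw [card_erase_of_mem]
      rw [mem_filter, map_zero]
      exact ⟨mem_univ _, mem_singleton_self _⟩
    omega
  have hl := pw_lower p g (by omega)
  have hu := pw_upper p g hg hd
  set P := (pw p g).card
  have r1 : ((p : ℝ) - 1) ≤ g * P := by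
    have : ((p - 1 : ℕ) : ℝ) ≤ ((g * P : ℕ) : ℝ) := by exact_mod_cast hl
    push_cast [Nat.cast_sub (by omega : 1 ≤ p)] at this
    exact this
  have r0 : ((p : ℝ) - 1) / 2 * p ≤ ((cls p g 0).card : ℝ) := by
    have h5 : p - 1 ≤ 2 * (p - 1 - P) := by omega
    have h6 : ((p - 1 : ℕ) : ℝ) ≤ 2 * ((p - 1 - P : ℕ) : ℝ) := by exact_mod_cast h5
    have h7 : ((p - 1 - P : ℕ) : ℝ) * p ≤ ((cls p g 0).card : ℝ) := by exact_mod_cast h0
    have h8 : ((p - 1 : ℕ) : ℝ) = (p : ℝ) - 1 := by push_cast [Nat.cast_sub (by omega : 1 ≤ p)]; rfl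
    have h9 : (0 : ℝ) < p := by exact_mod_cast hp.pos
    rw [h8] at h6
    nlinarith
  have r1' : (P : ℝ) * p ≤ ((cls p g 1).card : ℝ) := by exact_mod_cast h1
  have r2 : (p : ℝ) - 1 ≤ ((cls p g 2).card : ℝ) := by
    have : ((p - 1 : ℕ) : ℝ) ≤ ((cls p g 2).card : ℝ) := by exact_mod_cast h2
    push_cast [Nat.cast_sub (by omega : 1 ≤ p)] at this
    exact this
  have hp0 : (2 : ℝ) ≤ p := by exact_mod_cast hp2
  have hg0 : (0 : ℝ) < g := by
    have : 0 < g := by omega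
    exact_mod_cast this
  have hP : ((p : ℝ) - 1) / g ≤ P := by
    rw [div_le_iff₀ hg0]
    linarith
  push_cast
  rw [le_div_iff₀ (by positivity), Fintype.card_fin]
  have hhalf : (p : ℝ) / 2 ≤ p - 1 := by linarith
  have s0 : (p : ℝ) / 2 / 2 * p ≤ ((cls p g 0).card : ℝ) := by
    refine le_trans ?_ r0
    have : (p : ℝ) / 2 / 2 ≤ ((p : ℝ) - 1) / 2 := by linarith
    exact mul_le_mul_of_nonneg_right this (by linarith)
  have s1 : (p : ℝ) / 2 / g * p ≤ ((cls p g 1).card : ℝ) := by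
    refine le_trans ?_ r1'
    refine mul_le_mul_of_nonneg_right (le_trans ?_ hP) (by linarith)
    exact div_le_div_of_nonneg_right hhalf hg0.le
  have s2 : (p : ℝ) / 2 ≤ ((cls p g 2).card : ℝ) := hhalf.trans r2
  calc 1 / (16 * (g : ℝ)) * (1 / p) * ((p : ℝ) ^ 2) ^ 3
      = ((p : ℝ) / 2 / 2 * p) * ((p : ℝ) / 2 / g * p) * ((p : ℝ) / 2) := by
        field_simp
        ring
    _ ≤ ((cls p g 0).card : ℝ) * ((cls p g 1).card : ℝ) * ((cls p g 2).card : ℝ) := by
        have q0 : 0 ≤ (p : ℝ) / 2 / 2 * p := by positivity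
        have q1 : 0 ≤ (p : ℝ) / 2 / g * p := by positivity
        have q2 : 0 ≤ (p : ℝ) / 2 := by positivity
        exact mul_le_mul (mul_le_mul s0 s1 q1 (q0.trans s0)) s2 q2 (mul_nonneg (q0.trans s0) (q1.trans s1))

/-- **The vectors for which no prime `p ≡ 1 mod g` obstructs are a pronull set.** -/
theorem pronull (g : ℕ) (hg : 2 ≤ g) :
    ProNull {c : Fin 3 → ℤ | ¬ ∃ p : ℕ, p.Prime ∧ Obstr p g (c 0) (c 1) (c 2)} := by
  classical
  refine Pool.Agent.N697.RO.supply_pronull _ fun B => ?_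
  have hnz : NeZero g := ⟨by omega⟩
  have hns := Pool.Agent.Helper379.Div3.not_summable_inv_primes_mod (q := g) (a := 1) isUnit_one
  set f : ℕ → ℝ := fun n : ℕ => if n.Prime ∧ (n : ZMod g) = 1 then (1 : ℝ) / n else 0 with hf
  have hf0 : ∀ n, 0 ≤ f n := by
    intro n; simp only [hf]; split_ifs <;> positivity
  obtain ⟨U0, hU0⟩ : ∃ U0 : Finset ℕ, 16 * g * B ≤ ∑ n ∈ U0, f n := by
    by_contra hcon
    push Not at hcon
    exact hns (summable_of_sum_le hf0 fun u => (hcon u).le)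
  set U : Finset ℕ := U0.filter (fun n : ℕ => n.Prime ∧ (n : ZMod g) = 1) with hU
  have hsum : ∑ n ∈ U, (1 : ℝ) / n = ∑ n ∈ U0, f n := by
    rw [hU, sum_filter]
  have hgR : (0 : ℝ) < g := by
    have : 0 < g := by omega
    exact_mod_cast this
  refine ⟨U, fun p hp => (mem_filter.1 hp).2.1, fun p => if h : p.Prime then
    (haveI : Fact p.Prime := ⟨h⟩
     haveI : NeZero (p ^ 2) := ⟨pow_ne_zero 2 h.ne_zero⟩
     ((Fintype.piFinset (cls p g) : Finset (Fin 3 → ZMod (p ^ 2))) : Set (Fin 3 → ZMod (p ^ 2)))) else ∅, ?_, ?_⟩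
  · have h1 : B ≤ ∑ p ∈ U, 1 / (16 * (g : ℝ)) * (1 / p) := by
      rw [← mul_sum, hsum]
      calc B = 1 / (16 * (g : ℝ)) * (16 * g * B) := by field_simp
        _ ≤ 1 / (16 * (g : ℝ)) * ∑ n ∈ U0, f n := mul_le_mul_of_nonneg_left hU0 (by positivity)
    refine h1.trans (sum_le_sum fun p hp => ?_)
    obtain ⟨-, hpp, hp1⟩ := mem_filter.1 hp
    haveI : Fact p.Prime := ⟨hpp⟩
    haveI : NeZero (p ^ 2) := ⟨pow_ne_zero 2 hpp.ne_zero⟩
    have hd : g ∣ p - 1 := by
      have h2 : ((p - 1 : ℕ) : ZMod g) = 0 := by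
        rw [Nat.cast_sub hpp.one_le, hp1]
        simp
      exact (ZMod.natCast_eq_zero_iff _ _).1 h2
    beta_reduce
    rw [dif_pos hpp]
    exact cls_share hg hd
  · intro p hp c hc
    obtain ⟨-, hpp, hp1⟩ := mem_filter.1 hp
    haveI : Fact p.Prime := ⟨hpp⟩
    haveI : NeZero (p ^ 2) := ⟨pow_ne_zero 2 hpp.ne_zero⟩
    beta_reduce at hc
    rw [dif_pos hpp] at hc
    refine ⟨p, hpp, obstr_of_cls (by omega) fun i => ?_⟩
    exact Fintype.mem_piFinset.1 (mem_coe.1 hc) i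

end Pool.Agent.U125.GF
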