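import Mathlib

/-!
# Local insolubility of `a x ^ m + b y ^ n = c` at a prime which divides `c` exactly once
-/

set_option autoImplicit false

namespace Pool.Agent.U125.GF

lemma exact_le {p : ℤ} (hp : p ≠ 0) {e f : ℕ} {U V : ℤ} (hU : ¬ p ∣ U) (h : p ^ e * U = p ^ f * V) :
    f ≤ e := by
  by_contra hlt
  apply hU
  obtain ⟨d, rfl⟩ : ∃ d, f = e + (d + 1) := ⟨f - e - 1, by omega⟩
  have h2 : p ^ e * U = p ^ e * (p * (p ^ d * V)) := by rw [h]; ring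
  exact ⟨p ^ d * V, mul_left_cancel₀ (pow_ne_zero e hp) h2⟩

lemma exact_unique {p : ℤ} (hp : p ≠ 0) {e f : ℕ} {U V : ℤ} (hU : ¬ p ∣ U) (hV : ¬ p ∣ V)
    (h : p ^ e * U = p ^ f * V) : e = f :=
  le_antisymm (exact_le hp hV h.symm) (exact_le hp hU h)

lemma exact_dec {p : ℕ} (hp : p.Prime) {X : ℤ} (hX : X ≠ 0) :
    ∃ (i : ℕ) (X0 : ℤ), ¬ (p : ℤ) ∣ X0 ∧ X = (p : ℤ) ^ i * X0 := by
  have hfin : FiniteMultiplicity (p : ℤ) X :=
    Int.finiteMultiplicity_iff.2 ⟨by simpa using hp.one_lt.ne', hX⟩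
  obtain ⟨X0, h1, h2⟩ := hfin.exists_eq_pow_mul_and_not_dvd
  exact ⟨_, X0, h2, h1⟩

/-- `p` divides `c` exactly once, does not divide `a` and `b`, and `a u ^ g + b v ^ g` is anisotropic modulo `p` -/
def Obstr (p g : ℕ) (a b c : ℤ) : Prop :=
  ¬ (p : ℤ) ∣ a ∧ ¬ (p : ℤ) ∣ b ∧ (∃ c0 : ℤ, c = p * c0 ∧ ¬ (p : ℤ) ∣ c0) ∧
    ∀ u v : ℤ, (p : ℤ) ∣ a * u ^ g + b * v ^ g → (p : ℤ) ∣ u

lemma lhs_dec {p : ℕ} (hp : p.Prime) {g m n : ℕ} (hg : 2 ≤ g) (hm : 1 ≤ m) (hn : 1 ≤ n) {a b c : ℤ}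
    (h : Obstr p g a b c) {X Y : ℤ} (hXY : ¬ (X = 0 ∧ Y = 0)) :
    ∃ (e : ℕ) (U : ℤ), ¬ (p : ℤ) ∣ U ∧ a * X ^ (g * m) + b * Y ^ (g * n) = (p : ℤ) ^ (g * e) * U := by
  obtain ⟨ha, hb, -, an⟩ := h
  have hpp : Prime (p : ℤ) := Nat.prime_iff_prime_int.1 hp
  have hmul : ∀ {s t : ℤ}, ¬ (p : ℤ) ∣ s → ¬ (p : ℤ) ∣ t → ∀ k : ℕ, ¬ (p : ℤ) ∣ s * t ^ k := by
    intro s t hs ht k hd
    rcases hpp.dvd_or_dvd hd with h1 | h1
    · exact hs h1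
    · exact ht (hpp.dvd_of_dvd_pow h1)
  have hgm : g * m ≠ 0 := by positivity
  have hgn : g * n ≠ 0 := by positivity
  rcases eq_or_ne X 0 with hX | hX
  · have hY : Y ≠ 0 := fun hY => hXY ⟨hX, hY⟩
    obtain ⟨j, Y0, hY0, rfl⟩ := exact_dec hp hY
    refine ⟨n * j, b * Y0 ^ (g * n), hmul hb hY0 _, ?_⟩
    rw [hX, zero_pow hgm, mul_pow, ← pow_mul]
    ring
  · rcases eq_or_ne Y 0 with hY | hY
    · obtain ⟨i, X0, hX0, rfl⟩ := exact_dec hp hX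
      refine ⟨m * i, a * X0 ^ (g * m), hmul ha hX0 _, ?_⟩
      rw [hY, zero_pow hgn, mul_pow, ← pow_mul]
      ring
    · obtain ⟨i, X0, hX0, rfl⟩ := exact_dec hp hX
      obtain ⟨j, Y0, hY0, rfl⟩ := exact_dec hp hY
      rcases lt_trichotomy (m * i) (n * j) with hlt | heq | hlt
      · obtain ⟨d, hd⟩ : ∃ d, n * j = m * i + (d + 1) := ⟨n * j - m * i - 1, by omega⟩
        refine ⟨m * i, a * X0 ^ (g * m) + (p : ℤ) ^ (g * (d + 1)) * (b * Y0 ^ (g * n)), ?_, ?_⟩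
        · intro hdv
          have h2 : (p : ℤ) ∣ (p : ℤ) ^ (g * (d + 1)) * (b * Y0 ^ (g * n)) :=
            Dvd.dvd.mul_right (dvd_pow_self _ (by positivity)) _
          exact hmul ha hX0 _ ((Int.dvd_add_left h2).1 hdv)
        · have e1 : ((p : ℤ) ^ j * Y0) ^ (g * n) = (p : ℤ) ^ (g * (n * j)) * Y0 ^ (g * n) := by
            rw [mul_pow, ← pow_mul]; ring
          have e2 : ((p : ℤ) ^ i * X0) ^ (g * m) = (p : ℤ) ^ (g * (m * i)) * X0 ^ (g * m) := by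
            rw [mul_pow, ← pow_mul]; ring
          rw [e1, e2, hd, mul_add g (m * i), pow_add]
          ring
      · refine ⟨m * i, a * X0 ^ (g * m) + b * Y0 ^ (g * n), ?_, ?_⟩
        · intro hdv
          have h1 : (p : ℤ) ∣ a * (X0 ^ m) ^ g + b * (Y0 ^ n) ^ g := by
            rw [← pow_mul, ← pow_mul, mul_comm m g, mul_comm n g]
            exact hdv
          exact hX0 (hpp.dvd_of_dvd_pow (an _ _ h1))
        · have e1 : ((p : ℤ) ^ j * Y0) ^ (g * n) = (p : ℤ) ^ (g * (n * j)) * Y0 ^ (g * n) := by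
            rw [mul_pow, ← pow_mul]; ring
          have e2 : ((p : ℤ) ^ i * X0) ^ (g * m) = (p : ℤ) ^ (g * (m * i)) * X0 ^ (g * m) := by
            rw [mul_pow, ← pow_mul]; ring
          rw [e1, e2, ← heq]
          ring
      · obtain ⟨d, hd⟩ : ∃ d, m * i = n * j + (d + 1) := ⟨m * i - n * j - 1, by omega⟩
        refine ⟨n * j, b * Y0 ^ (g * n) + (p : ℤ) ^ (g * (d + 1)) * (a * X0 ^ (g * m)), ?_, ?_⟩
        · intro hdv
          have h2 : (p : ℤ) ∣ (p : ℤ) ^ (g * (d + 1)) * (a * X0 ^ (g * m)) :=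
            Dvd.dvd.mul_right (dvd_pow_self _ (by positivity)) _
          exact hmul hb hY0 _ ((Int.dvd_add_left h2).1 hdv)
        · have e1 : ((p : ℤ) ^ j * Y0) ^ (g * n) = (p : ℤ) ^ (g * (n * j)) * Y0 ^ (g * n) := by
            rw [mul_pow, ← pow_mul]; ring
          have e2 : ((p : ℤ) ^ i * X0) ^ (g * m) = (p : ℤ) ^ (g * (m * i)) * X0 ^ (g * m) := by
            rw [mul_pow, ← pow_mul]; ring
          rw [e1, e2, hd, mul_add g (n * j), pow_add]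
          ring

lemma no_int {p : ℕ} (hp : p.Prime) {g m n : ℕ} (hg : 2 ≤ g) (hm : 1 ≤ m) (hn : 1 ≤ n) {a b c : ℤ}
    (h : Obstr p g a b c) {X Y D : ℤ} (hD : D ≠ 0) (k : ℕ) :
    a * X ^ (g * m) + b * Y ^ (g * n) ≠ c * D ^ (g * k) := by
  intro heq
  have hpp : Prime (p : ℤ) := Nat.prime_iff_prime_int.1 hp
  obtain ⟨c0, hc, hc0⟩ := h.2.2.1
  obtain ⟨d, D0, hD0, rfl⟩ := exact_dec hp hD
  have hV : ¬ (p : ℤ) ∣ c0 * D0 ^ (g * k) := by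
    intro hd
    rcases hpp.dvd_or_dvd hd with h1 | h1
    · exact hc0 h1
    · exact hD0 (hpp.dvd_of_dvd_pow h1)
  have hR : c * ((p : ℤ) ^ d * D0) ^ (g * k) = (p : ℤ) ^ (g * (k * d) + 1) * (c0 * D0 ^ (g * k)) := by
    rw [hc, mul_pow, ← pow_mul, pow_succ]
    ring
  have hXY : ¬ (X = 0 ∧ Y = 0) := by
    rintro ⟨rfl, rfl⟩
    rw [zero_pow (by positivity), zero_pow (by positivity), hR] at heq
    have h0 : (p : ℤ) ^ (g * (k * d) + 1) * (c0 * D0 ^ (g * k)) = 0 := by rw [← heq]; ring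
    rcases mul_eq_zero.1 h0 with h1 | h1
    · exact pow_ne_zero _ hpp.ne_zero h1
    · exact hV (h1 ▸ dvd_zero _)
  obtain ⟨e, U, hU, hL⟩ := lhs_dec hp hg hm hn h hXY
  rw [hL, hR] at heq
  have h3 := exact_unique hpp.ne_zero hU hV heq
  have h4 : g ∣ 1 := (Nat.dvd_add_right (dvd_mul_right g (k * d))).1 (h3 ▸ dvd_mul_right g e)
  have h5 := Nat.dvd_one.1 h4
  omega

lemma no_rat {p : ℕ} (hp : p.Prime) {g m n : ℕ} (hg : 2 ≤ g) (hm : 1 ≤ m) (hn : 1 ≤ n) {a b c : ℤ}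
    (h : Obstr p g a b c) (x y : ℚ) : (a : ℚ) * x ^ (g * m) + b * y ^ (g * n) ≠ c := by
  intro heq
  have hx0 : ((x.den : ℤ) : ℚ) ≠ 0 := by exact_mod_cast x.den_nz
  have hy0 : ((y.den : ℤ) : ℚ) ≠ 0 := by exact_mod_cast y.den_nz
  have hx : x * ((x.den : ℤ) : ℚ) = (x.num : ℚ) := by exact_mod_cast Rat.mul_den_eq_num x
  have hy : y * ((y.den : ℤ) : ℚ) = (y.num : ℚ) := by exact_mod_cast Rat.mul_den_eq_num y
  obtain ⟨n1, rfl⟩ : ∃ n1, n = n1 + 1 := ⟨n - 1, by omega⟩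
  obtain ⟨m1, rfl⟩ : ∃ m1, m = m1 + 1 := ⟨m - 1, by omega⟩
  have hD : (x.den : ℤ) * (y.den : ℤ) ≠ 0 := by
    have h1 : (x.den : ℤ) ≠ 0 := by exact_mod_cast x.den_nz
    have h2 : (y.den : ℤ) ≠ 0 := by exact_mod_cast y.den_nz
    exact mul_ne_zero h1 h2
  refine no_int hp hg hm hn h (X := x.num * (x.den : ℤ) ^ n1 * (y.den : ℤ) ^ (n1 + 1))
    (Y := y.num * (y.den : ℤ) ^ m1 * (x.den : ℤ) ^ (m1 + 1)) hD ((m1 + 1) * (n1 + 1)) ?_
  have key : ((a * (x.num * (x.den : ℤ) ^ n1 * (y.den : ℤ) ^ (n1 + 1)) ^ (g * (m1 + 1)) +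
      b * (y.num * (y.den : ℤ) ^ m1 * (x.den : ℤ) ^ (m1 + 1)) ^ (g * (n1 + 1)) : ℤ) : ℚ) =
      ((c * ((x.den : ℤ) * (y.den : ℤ)) ^ (g * ((m1 + 1) * (n1 + 1))) : ℤ) : ℚ) := by
    push_cast
    have e1 : ((x.num : ℚ) * (x.den : ℚ) ^ n1 * (y.den : ℚ) ^ (n1 + 1)) =
        x * ((x.den : ℚ) * (y.den : ℚ)) ^ (n1 + 1) := by
      have : (x.num : ℚ) = x * (x.den : ℚ) := by rw [← hx]; push_cast; rfl
      rw [this, mul_pow, pow_succ (x.den : ℚ)]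
      ring
    have e2 : ((y.num : ℚ) * (y.den : ℚ) ^ m1 * (x.den : ℚ) ^ (m1 + 1)) =
        y * ((x.den : ℚ) * (y.den : ℚ)) ^ (m1 + 1) := by
      have : (y.num : ℚ) = y * (y.den : ℚ) := by rw [← hy]; push_cast; rfl
      rw [this, mul_pow, pow_succ (y.den : ℚ)]
      ring
    rw [e1, e2, mul_pow x, mul_pow y, ← pow_mul, ← pow_mul, ← heq]
    have e3 : (n1 + 1) * (g * (m1 + 1)) = g * ((m1 + 1) * (n1 + 1)) := by ring
    have e4 : (m1 + 1) * (g * (n1 + 1)) = g * ((m1 + 1) * (n1 + 1)) := by ring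
    rw [e3, e4]
    ring
  exact_mod_cast key

lemma no_inf {p : ℕ} (hp : p.Prime) {g : ℕ} (hg : 2 ≤ g) {a b c : ℤ}
    (h : Obstr p g a b c) (z : ℚ) : (a : ℚ) + b * z ^ g ≠ 0 := by
  intro heq
  have hpp : Prime (p : ℤ) := Nat.prime_iff_prime_int.1 hp
  obtain ⟨ha, hb, -, an⟩ := h
  have hz0 : (z.den : ℚ) ≠ 0 := by exact_mod_cast z.den_nz
  have hz : (z.num : ℚ) = z * (z.den : ℚ) := by exact_mod_cast (Rat.mul_den_eq_num z).symm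
  have h1 : a * (z.den : ℤ) ^ g + b * z.num ^ g = 0 := by
    have : ((a * (z.den : ℤ) ^ g + b * z.num ^ g : ℤ) : ℚ) = 0 := by
      push_cast
      rw [hz, mul_pow]
      have : (a : ℚ) * (z.den : ℚ) ^ g + b * (z ^ g * (z.den : ℚ) ^ g) =
          (a + b * z ^ g) * (z.den : ℚ) ^ g := by ring
      rw [this, heq, zero_mul]
    exact_mod_cast this
  have h2 : (p : ℤ) ∣ (z.den : ℤ) := an _ _ (h1 ▸ dvd_zero _)
  have h3 : (p : ℤ) ∣ a * (z.den : ℤ) ^ g := Dvd.dvd.mul_left (dvd_pow h2 (by omega)) _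
  have h4 : (p : ℤ) ∣ b * z.num ^ g := by
    have : b * z.num ^ g = -(a * (z.den : ℤ) ^ g) := by linarith
    rw [this]
    exact (dvd_neg).2 h3
  have h5 : (p : ℤ) ∣ z.num := by
    rcases hpp.dvd_or_dvd h4 with h6 | h6
    · exact absurd h6 hb
    · exact hpp.dvd_of_dvd_pow h6
  have h6 := z.reduced
  have h7 : p ∣ z.num.natAbs := Int.natCast_dvd.1 h5
  have h8 : p ∣ z.den := by exact_mod_cast h2
  exact hp.one_lt.ne' (Nat.dvd_one.1 (h6 ▸ Nat.dvd_gcd h7 h8))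

end Pool.Agent.U125.GF
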